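import Pool.Agent.helper88.RQ2.Spec

/-!
# Project RQ, row C7L: rank three, seven points, a line with four points
-/

set_option autoImplicit false

open Set Matroid RadonMin

namespace RadonQ2

section

variable {V : Type} [AddCommGroup V] [Module ℝ V]

lemma C7L_four {a b c d : V} (hab : a ≠ b) (h1 : Col a b c) (h2 : Col a b d) :
    Collinear ℝ ({c, d, a, b} : Set V) := by
  apply collinear_insert_insert_of_mem_affineSpan_pair
  · exact Collinear.mem_affineSpan_of_mem_of_ne h1 (by simp) (by simp) (by simp) hab
  · exact Collinear.mem_affineSpan_of_mem_of_ne h2 (by simp) (by simp) (by simp) hab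

lemma C7L_perm {a b c a' b' c' : V} (h : Col a b c)
    (hs : ({a', b', c'} : Set V) ⊆ {a, b, c}) : Col a' b' c' :=
  Collinear.subset hs h

variable [DecidableEq V]

/-- Two outside points are on a line with a point of `L`, or there are many circuits. -/
lemma C7L_pair (hC0 : C0_stmt) (hGTR : GTR_stmt) {X L : Finset V} (D : LineData (affMat X) X L)
    (hL : 4 ≤ L.card)
    (hbig : cc (affMat X) < L.card.choose 3 + (X \ L).card.choose 2 * (1 + (L.card - 1).choose 2)
      + (X \ L).card.choose 3 + (L.card - 2)) {y z : V} (hy : y ∈ X \ L) (hz : z ∈ X \ L)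
    (hyz : y ≠ z) : ∃ p ∈ L, Col p y z := by
  by_contra hcon
  push Not at hcon
  have hY : ({y, z} : Finset V) ∈ (X \ L).powersetCard 2 := by
    rw [Finset.mem_powersetCard]
    refine ⟨?_, Finset.card_pair hyz⟩
    intro w hw
    simp only [Finset.mem_insert, Finset.mem_singleton] at hw
    rcases hw with rfl | rfl
    · exact hy
    · exact hz
  have h1 := hC0 V (affMat X) X L D hL {y, z} hY (by
    intro p hp hc
    have hy' := Finset.mem_sdiff.mp hy
    have hz' := Finset.mem_sdiff.mp hz
    apply hcon p hp
    refine (hGTR V X p y z (D.sub hp) hy'.1 hz'.1 ?_ hyz ?_).1 ?_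
    · rintro rfl; exact hy'.2 hp
    · rintro rfl; exact hz'.2 hp
    · show (affMat X).IsCircuit ({p, y, z} : Set V)
      simpa using hc)
  omega

end

/-- **Row C7L** -/
theorem C7L_proof (hGTR : GTR_stmt) (hGCO : GCO_stmt) (hC0 : C0_stmt) (hEB : EB_stmt) :
    C7L_stmt := by
  classical
  intro V _ _ _ X hra hcard hci hK
  have hsimp : Simp (affMat X) := affMat_simp X
  have hE : (affMat X).E = (X : Set V) := rfl
  have hrk : rk (affMat X) (affMat X).E = 3 := hra
  obtain ⟨E', L, D⟩ := exists_lineData (affMat X) hsimp hrk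
  have hE' : E' = X := by
    have := D.coe_E
    rw [hE] at this
    exact_mod_cast this
  subst hE'
  obtain ⟨hEB1, -⟩ := hEB V
  have hcc : cc (affMat E') ≤ 17 := hci
  have hncol : ¬ Collinear ℝ (E' : Set V) := by
    intro hcol
    have := (hGCO V E').2 hcol
    omega
  have hLcol : Collinear ℝ (L : Set V) := by
    apply (hGCO V L).1
    rw [← hEB1 L E' D.sub]
    exact D.rk_L
  have hL4 : 4 ≤ L.card := by
    obtain ⟨K, hKX, hKc, hK4⟩ := hK
    refine hK4.trans (D.max K hKX ?_)
    rw [hEB1 K E' hKX]
    exact (hGCO V K).2 hKc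
  have hLE := Finset.card_le_card D.sub
  have hsd : (E' \ L).card = 7 - L.card := by
    rw [Finset.card_sdiff_of_subset D.sub, hcard]
  have hL7 : L.card ≠ 7 := by
    intro h
    have h1 : L = E' := Finset.eq_of_subset_of_card_le D.sub (by omega)
    rw [h1] at hLcol
    exact hncol hLcol
  have hunion : L ∪ (E' \ L) = E' := Finset.union_sdiff_of_subset D.sub
  have htrace := D.cc_ge_trace hL4
  rw [hsd] at htrace
  have hcases : L.card = 4 ∨ L.card = 5 ∨ L.card = 6 := by omega
  rcases hcases with h | h | h
  · -- four points on the line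
    have h3 : (E' \ L).card = 3 := by rw [hsd, h]
    obtain ⟨x, y, z, hxy, hxz, hyz, hout⟩ := Finset.card_eq_three.mp h3
    have hx : x ∈ E' \ L := by rw [hout]; simp
    have hy : y ∈ E' \ L := by rw [hout]; simp
    have hz : z ∈ E' \ L := by rw [hout]; simp
    have hbig : cc (affMat E') < L.card.choose 3 + (E' \ L).card.choose 2 *
        (1 + (L.card - 1).choose 2) + (E' \ L).card.choose 3 + (L.card - 2) := by
      rw [h3, h]
      have : Nat.choose 4 3 + Nat.choose 3 2 * (1 + Nat.choose (4 - 1) 2) +
        Nat.choose 3 3 + (4 - 2) = 19 := by decide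
      omega
    obtain ⟨p, hp, hpc⟩ := C7L_pair hC0 hGTR D hL4 hbig hy hz hyz
    obtain ⟨q, hq, hqc⟩ := C7L_pair hC0 hGTR D hL4 hbig hx hz hxz
    obtain ⟨r, hr, hrc⟩ := C7L_pair hC0 hGTR D hL4 hbig hx hy hxy
    have hxL := (Finset.mem_sdiff.mp hx).2
    have hyL := (Finset.mem_sdiff.mp hy).2
    have hzL := (Finset.mem_sdiff.mp hz).2
    by_cases hcol : Col x y z
    · -- two lines with four points
      right; left
      have he : (L.erase p).card = 3 := by rw [Finset.card_erase_of_mem hp, h]
      obtain ⟨a, b, c, hab, hac, hbc, habc⟩ := Finset.card_eq_three.mp he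
      have hLeq : L = {p, a, b, c} := by rw [← Finset.insert_erase hp, habc]
      refine ⟨p, a, b, c, x, y, z, hcard, ?_, ?_, ?_, hncol⟩
      · rw [← hunion, hout, hLeq]
        ext w
        simp only [Finset.coe_union, Finset.coe_insert, Finset.coe_singleton, Set.mem_union,
          Set.mem_insert_iff, Set.mem_singleton_iff]
        tauto
      · rw [hLeq] at hLcol
        simpa using hLcol
      · have h4 : Collinear ℝ ({p, x, y, z} : Set V) :=
          C7L_four hyz (C7L_perm hpc (by intro v hv; simp only [Set.mem_insert_iff, Set.mem_singleton_iff] at hv ⊢; tauto))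
            (C7L_perm hcol (by intro v hv; simp only [Set.mem_insert_iff, Set.mem_singleton_iff] at hv ⊢; tauto))
        exact h4
    · -- a triangle
      right; right
      have hpq : p ≠ q := by
        rintro rfl
        have hpz : p ≠ z := by rintro rfl; exact hzL hp
        have h4 : Collinear ℝ ({y, x, p, z} : Set V) :=
          C7L_four hpz (C7L_perm hpc (by intro v hv; simp only [Set.mem_insert_iff, Set.mem_singleton_iff] at hv ⊢; tauto))
            (C7L_perm hqc (by intro v hv; simp only [Set.mem_insert_iff, Set.mem_singleton_iff] at hv ⊢; tauto))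
        exact hcol (h4.subset (by intro v hv; simp only [Set.mem_insert_iff, Set.mem_singleton_iff] at hv ⊢; tauto))
      have hpr : p ≠ r := by
        rintro rfl
        have hpy : p ≠ y := by rintro rfl; exact hyL hp
        have h4 : Collinear ℝ ({z, x, p, y} : Set V) :=
          C7L_four hpy (C7L_perm hpc (by intro v hv; simp only [Set.mem_insert_iff, Set.mem_singleton_iff] at hv ⊢; tauto))
            (C7L_perm hrc (by intro v hv; simp only [Set.mem_insert_iff, Set.mem_singleton_iff] at hv ⊢; tauto))
        exact hcol (h4.subset (by intro v hv; simp only [Set.mem_insert_iff, Set.mem_singleton_iff] at hv ⊢; tauto))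
      have hqr : q ≠ r := by
        rintro rfl
        have hqx : q ≠ x := by rintro rfl; exact hxL hq
        have h4 : Collinear ℝ ({z, y, q, x} : Set V) :=
          C7L_four hqx (C7L_perm hqc (by intro v hv; simp only [Set.mem_insert_iff, Set.mem_singleton_iff] at hv ⊢; tauto))
            (C7L_perm hrc (by intro v hv; simp only [Set.mem_insert_iff, Set.mem_singleton_iff] at hv ⊢; tauto))
        exact hcol (h4.subset (by intro v hv; simp only [Set.mem_insert_iff, Set.mem_singleton_iff] at hv ⊢; tauto))
      have hq' : q ∈ L.erase p := Finset.mem_erase.mpr ⟨hpq.symm, hq⟩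
      have hr' : r ∈ (L.erase p).erase q :=
        Finset.mem_erase.mpr ⟨hqr.symm, Finset.mem_erase.mpr ⟨hpr.symm, hr⟩⟩
      have he : (((L.erase p).erase q).erase r).card = 1 := by
        rw [Finset.card_erase_of_mem hr', Finset.card_erase_of_mem hq',
          Finset.card_erase_of_mem hp, h]
      obtain ⟨w, hw⟩ := Finset.card_eq_one.mp he
      have hLeq : L = {p, q, r, w} := by
        rw [← Finset.insert_erase hp, ← Finset.insert_erase hq', ← Finset.insert_erase hr', hw]
      refine ⟨p, q, r, w, x, y, z, hcard, ?_, ?_, ?_, ?_, ?_, hncol⟩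
      · rw [← hunion, hout, hLeq]
        ext v
        simp only [Finset.coe_union, Finset.coe_insert, Finset.coe_singleton, Set.mem_union,
          Set.mem_insert_iff, Set.mem_singleton_iff]
        tauto
      · rw [hLeq] at hLcol
        simpa using hLcol
      · exact C7L_perm hpc (by intro v hv; simp only [Set.mem_insert_iff, Set.mem_singleton_iff] at hv ⊢; tauto)
      · exact C7L_perm hqc (by intro v hv; simp only [Set.mem_insert_iff, Set.mem_singleton_iff] at hv ⊢; tauto)
      · exact C7L_perm hrc (by intro v hv; simp only [Set.mem_insert_iff, Set.mem_singleton_iff] at hv ⊢; tauto)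
  · -- five points on the line
    left
    have h2 : (E' \ L).card = 2 := by rw [hsd, h]
    obtain ⟨y, z, hyz, hout⟩ := Finset.card_eq_two.mp h2
    have hy : y ∈ E' \ L := by rw [hout]; simp
    have hz : z ∈ E' \ L := by rw [hout]; simp
    have hbig : cc (affMat E') < L.card.choose 3 + (E' \ L).card.choose 2 *
        (1 + (L.card - 1).choose 2) + (E' \ L).card.choose 3 + (L.card - 2) := by
      rw [h2, h]
      have : Nat.choose 5 3 + Nat.choose 2 2 * (1 + Nat.choose (5 - 1) 2) +
        Nat.choose 2 3 + (5 - 2) = 20 := by decide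
      omega
    obtain ⟨p, hp, hpc⟩ := C7L_pair hC0 hGTR D hL4 hbig hy hz hyz
    refine ⟨L, p, y, z, hcard, h, ?_, hLcol, hp, hpc, hncol⟩
    rw [← hunion, hout]
    simp
  · -- six points on the line
    rw [h] at htrace
    have : Nat.choose 6 3 + Nat.choose (7 - 6) 2 * (1 + Nat.choose (6 - 1) 2) +
      Nat.choose (7 - 6) 3 = 20 := by decide
    omega

end RadonQ2
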